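import Pool.Agent.Helper63.P705.NUM.Goals

/-!
# MP_705522_gt: the packed ratios of moments (goal N5)
-/

namespace Pool.Agent.Helper93.P705

open Pool.Agent.Helper63.P705
open Pool.Agent.Helper53.PT (mo aMO mo_pos)

theorem shl (a b : ℕ) : Nat.shiftLeft a b = a * 2 ^ b := Nat.shiftLeft_eq a b
theorem shr (a b : ℕ) : Nat.shiftRight a b = a / 2 ^ b := Nat.shiftRight_eq_div_pow a b

theorem gval_eq (G y : ℕ) : gval G y = fld G 128 (y % 8192) * prodP (y / 8192) (y % 8192) := by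
  unfold gval
  rw [sq_eq, shr]
  have h : Nat.land y 8191 = y % 8192 := Nat.and_two_pow_sub_one_eq_mod y 13
  rw [h]
  rfl

/-- the ratio computed by the loop -/
def rho (G a j : ℕ) : ℕ :=
  (gval G (a * (2 * j + 1)) * fld G 128 (8192 - a) *
    (if (a * (2 * j + 1)) / 8192 - (a * (2 * j + 1) - 2 * a) / 8192 = 0 then 655360 else 1)) * 2 ^ 120 /
    ((gval G (a * (2 * j - 1)) * (fld G 128 a * (8192 - a))) * (2 * j + 1))

/-- the step of the loop -/
noncomputable def stR (G a J : ℕ) (i cur R : ℕ) (k : ℕ → ℕ → ℕ) : ℕ :=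
  k (gval G (a * (2 * (J - i) + 1)))
    (R + (gval G (a * (2 * (J - i) + 1)) * fld G 128 (8192 - a) *
      (if (a * (2 * (J - i) + 1)) / 8192 - (a * (2 * (J - i) + 1) - 2 * a) / 8192 = 0 then 655360 else 1)) *
        2 ^ 120 / ((cur * (fld G 128 a * (8192 - a))) * (2 * (J - i) + 1)) * 2 ^ (128 * (J - i)))

theorem rpk_eq (G a J : ℕ) : rpk G a J = lp2 J (stR G a J) (fun _ R => R) (gval G a) (2 ^ 120) := by
  unfold rpk
  simp only [sq_eq, shl, shr, cnd_eq, Nat.beq_eq, one_mul]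
  rfl

theorem stR_eq (G a J i cur R : ℕ) (k : ℕ → ℕ → ℕ) : stR G a J i cur R k =
    k (gval G (a * (2 * (J - i) + 1)))
    (R + (gval G (a * (2 * (J - i) + 1)) * fld G 128 (8192 - a) *
      (if (a * (2 * (J - i) + 1)) / 8192 - (a * (2 * (J - i) + 1) - 2 * a) / 8192 = 0 then 655360 else 1)) *
        2 ^ 120 / ((cur * (fld G 128 a * (8192 - a))) * (2 * (J - i) + 1)) * 2 ^ (128 * (J - i))) := rfl

theorem shift_sum (f : ℕ → ℕ) (m i : ℕ) :
    ∑ k ∈ Finset.range (i + 1), f (m + k) = ∑ k ∈ Finset.range i, f (m + 1 + k) + f m := by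
  rw [Finset.sum_range_succ', Nat.add_zero]
  congr 1
  apply Finset.sum_congr rfl
  intro k _
  congr 1
  omega

theorem loop_eq (G a J : ℕ) : ∀ i, i ≤ J → ∀ R,
    lp2 i (stR G a J) (fun _ R => R) (gval G (a * (2 * (J - i) + 1))) R =
      R + ∑ k ∈ Finset.range i, (fun t => rho G a t * 2 ^ (128 * t)) (J - i + 1 + k) := by
  intro i
  induction i with
  | zero =>
    intro _ R
    rw [lp2_zero, Finset.sum_range_zero, Nat.add_zero]
  | succ i ih =>
    intro hi R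
    rw [lp2_succ, stR_eq, ih (by omega)]
    have e1 : J - (i + 1) + 1 = J - i := by omega
    rw [e1, shift_sum (fun t => rho G a t * 2 ^ (128 * t)) (J - i) i]
    have e3 : 2 * (J - (i + 1)) + 1 = 2 * (J - i) - 1 := by omega
    rw [e3, Nat.add_assoc, Nat.add_comm (∑ k ∈ Finset.range i, _)]
    rfl

theorem sum_aux (c J : ℕ) (r : ℕ → ℕ) :
    ∑ k ∈ Finset.range (J + 1), (if k = 0 then c else r k) * 2 ^ (128 * k) =
      c + ∑ k ∈ Finset.range J, r (1 + k) * 2 ^ (128 * (1 + k)) := by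
  have h0 : (if (0 : ℕ) = 0 then c else r 0) * 2 ^ (128 * 0) = c := by simp
  have h1 : ∀ k ∈ Finset.range J, (if k + 1 = 0 then c else r (k + 1)) * 2 ^ (128 * (k + 1)) =
      r (1 + k) * 2 ^ (128 * (1 + k)) := by
    intro k _
    have h2 : (if k + 1 = 0 then c else r (k + 1)) = r (k + 1) := if_neg (Nat.succ_ne_zero k)
    have h3 : k + 1 = 1 + k := Nat.add_comm k 1
    rw [h2, h3]
  rw [Finset.sum_range_succ', h0, Finset.sum_congr rfl h1, Nat.add_comm]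

theorem rpk_sum (G a J : ℕ) : rpk G a J =
    ∑ k ∈ Finset.range (J + 1), (if k = 0 then 2 ^ 120 else rho G a k) * 2 ^ (128 * k) := by
  have h := loop_eq G a J J le_rfl (2 ^ 120)
  rw [Nat.sub_self, mul_zero, zero_add, mul_one] at h
  rw [rpk_eq, h, sum_aux]

/-- the exact value approximated by `gval` -/
noncomputable def NV (y : ℕ) : ℝ := 256 * gG (1 + y / 8192) * 655360 ^ (y / 8192)

theorem gval_approx (h4 : N4) (G : ℕ) {δ : ℝ}
    (hG : ∀ r : ℕ, r < 8192 → |(gent r : ℝ) - 256 * gG (1 + r / 8192)| ≤ δ * (256 * gG (1 + r / 8192)) ∧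
      fld G 128 r = gent r) (y : ℕ) : |(gval G y : ℝ) - NV y| ≤ δ * NV y ∧ 0 < NV y := by
  have hr : y % 8192 < 8192 := Nat.mod_lt _ (by norm_num)
  obtain ⟨h1, h2⟩ := hG (y % 8192) hr
  have h3 := h4.2.2.2 (y / 8192) (y % 8192)
  have h5 : ((8192 : ℝ) * ((y / 8192 : ℕ) : ℝ) + ((y % 8192 : ℕ) : ℝ)) = y := by
    exact_mod_cast Nat.div_add_mod y 8192
  rw [h5] at h3
  have hpos : 0 < gG (1 + (y : ℝ) / 8192) := (h4.1 _ (by positivity)).2
  have hNV : NV y = 256 * gG (1 + ((y % 8192 : ℕ) : ℝ) / 8192) * prodP (y / 8192) (y % 8192) := by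
    unfold NV
    rw [mul_assoc, h3, mul_assoc]
  refine ⟨?_, by unfold NV; positivity⟩
  rw [hNV, gval_eq, h2]
  push_cast
  have h6 : (0 : ℝ) ≤ prodP (y / 8192) (y % 8192) := Nat.cast_nonneg _
  have h7 : (gent (y % 8192) : ℝ) * prodP (y / 8192) (y % 8192) -
      256 * gG (1 + ((y % 8192 : ℕ) : ℝ) / 8192) * prodP (y / 8192) (y % 8192) =
      ((gent (y % 8192) : ℝ) - 256 * gG (1 + ((y % 8192 : ℕ) : ℝ) / 8192)) * prodP (y / 8192) (y % 8192) := by
    ring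
  rw [h7, abs_mul, abs_of_nonneg h6]
  calc _ ≤ δ * (256 * gG (1 + ((y % 8192 : ℕ) : ℝ) / 8192)) * prodP (y / 8192) (y % 8192) :=
        mul_le_mul_of_nonneg_right h1 h6
    _ = _ := by ring

/-- propagation of the relative errors -/
theorem ratio_approx {δ X Y U V x y u v c k r : ℝ} (hδ0 : 0 ≤ δ) (hδ : δ ≤ 1 / 16) (hX : 0 < X) (hY : 0 < Y)
    (hU : 0 < U) (hV : 0 < V) (hc : 0 < c) (hk : 0 < k) (hx : |x - X| ≤ δ * X) (hy : |y - Y| ≤ δ * Y)
    (hu : |u - U| ≤ δ * U) (hv : |v - V| ≤ δ * V) (hr : r * (U * V * k) = X * Y * c) (hr0 : 0 < r) :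
    0 < u ∧ 0 < v ∧ |x * y * c / (u * v * k) - r| ≤ 8 * δ * r := by
  rw [abs_le] at hx hy hu hv
  have hx1 : (1 - δ) * X ≤ x := by linarith
  have hx2 : x ≤ (1 + δ) * X := by linarith
  have hy1 : (1 - δ) * Y ≤ y := by linarith
  have hy2 : y ≤ (1 + δ) * Y := by linarith
  have hu1 : (1 - δ) * U ≤ u := by linarith
  have hu2 : u ≤ (1 + δ) * U := by linarith
  have hv1 : (1 - δ) * V ≤ v := by linarith
  have hv2 : v ≤ (1 + δ) * V := by linarith
  have h1 : 0 < 1 - δ := by linarith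
  have hu0 : 0 < u := lt_of_lt_of_le (mul_pos h1 hU) hu1
  have hv0 : 0 < v := lt_of_lt_of_le (mul_pos h1 hV) hv1
  have hx0 : 0 < x := lt_of_lt_of_le (mul_pos h1 hX) hx1
  have hy0 : 0 < y := lt_of_lt_of_le (mul_pos h1 hY) hy1
  have hxy1 : (1 - δ) ^ 2 * (X * Y) ≤ x * y := by
    calc (1 - δ) ^ 2 * (X * Y) = ((1 - δ) * X) * ((1 - δ) * Y) := by ring
      _ ≤ x * y := mul_le_mul hx1 hy1 (mul_pos h1 hY).le hx0.le
  have hxy2 : x * y ≤ (1 + δ) ^ 2 * (X * Y) := by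
    calc x * y ≤ ((1 + δ) * X) * ((1 + δ) * Y) := mul_le_mul hx2 hy2 hy0.le (by positivity)
      _ = _ := by ring
  have huv1 : (1 - δ) ^ 2 * (U * V) ≤ u * v := by
    calc (1 - δ) ^ 2 * (U * V) = ((1 - δ) * U) * ((1 - δ) * V) := by ring
      _ ≤ u * v := mul_le_mul hu1 hv1 (mul_pos h1 hV).le hu0.le
  have huv2 : u * v ≤ (1 + δ) ^ 2 * (U * V) := by
    calc u * v ≤ ((1 + δ) * U) * ((1 + δ) * V) := mul_le_mul hu2 hv2 hv0.le (by positivity)
      _ = _ := by ring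
  refine ⟨hu0, hv0, ?_⟩
  have hD : 0 < u * v * k := by positivity
  have hrk : 0 < r * k := mul_pos hr0 hk
  rw [abs_le]
  constructor
  · have h2 : (1 - 8 * δ) * r ≤ x * y * c / (u * v * k) := by
      rw [le_div_iff₀ hD]
      have h3 : (1 - 8 * δ) * (1 + δ) ^ 2 ≤ (1 - δ) ^ 2 := by nlinarith [pow_nonneg hδ0 3]
      have h8 : 0 ≤ 1 - 8 * δ := by linarith
      calc (1 - 8 * δ) * r * (u * v * k) = (1 - 8 * δ) * (r * k) * (u * v) := by ring
        _ ≤ (1 - 8 * δ) * (r * k) * ((1 + δ) ^ 2 * (U * V)) :=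
            mul_le_mul_of_nonneg_left huv2 (mul_nonneg h8 hrk.le)
        _ = ((1 - 8 * δ) * (1 + δ) ^ 2) * (r * (U * V * k)) := by ring
        _ ≤ (1 - δ) ^ 2 * (r * (U * V * k)) := mul_le_mul_of_nonneg_right h3 (by positivity)
        _ = (1 - δ) ^ 2 * (X * Y) * c := by rw [hr]; ring
        _ ≤ x * y * c := mul_le_mul_of_nonneg_right hxy1 hc.le
    linarith
  · have h2 : x * y * c / (u * v * k) ≤ (1 + 8 * δ) * r := by
      rw [div_le_iff₀ hD]
      have h3 : (1 + δ) ^ 2 ≤ (1 + 8 * δ) * (1 - δ) ^ 2 := by nlinarith [pow_nonneg hδ0 3]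
      calc x * y * c ≤ (1 + δ) ^ 2 * (X * Y) * c := mul_le_mul_of_nonneg_right hxy2 hc.le
        _ = (1 + δ) ^ 2 * (r * (U * V * k)) := by rw [hr]; ring
        _ ≤ ((1 + 8 * δ) * (1 - δ) ^ 2) * (r * (U * V * k)) := mul_le_mul_of_nonneg_right h3 (by positivity)
        _ = (1 + 8 * δ) * (r * k) * ((1 - δ) ^ 2 * (U * V)) := by ring
        _ ≤ (1 + 8 * δ) * (r * k) * (u * v) := mul_le_mul_of_nonneg_left huv1 (by positivity)
        _ = (1 + 8 * δ) * r * (u * v * k) := by ring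
    linarith

theorem rj_bounds {θ : ℝ} (h0 : 0 < θ) (h1 : θ < 1 / 2) (j : ℕ) : 0 < rj θ j ∧ rj θ j ≤ 1 := by
  have hp := mo_pos h0 (by linarith : θ < 1) j
  have hp1 := mo_pos h0 (by linarith : θ < 1) (j + 1)
  have h2 := aMO.2.1 θ (1 / 2) h0 h1.le le_rfl j
  have h3 := aMO.2.2 j
  have hq := mo_pos (by norm_num : (0 : ℝ) < 1 / 2) (by norm_num) j
  rw [h3, mul_div_assoc, div_self hq.ne', mul_one] at h2
  have hj : (0 : ℝ) < 2 * j + 1 := by positivity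
  unfold rj
  refine ⟨by positivity, ?_⟩
  rw [div_le_one (by positivity)]
  rwa [div_le_iff₀ hp] at h2

theorem rj_eq (h4 : N4) {a : ℕ} (ha : 2048 ≤ a) (ha2 : a < 4096) {j : ℕ} (hj : 1 ≤ j) :
    rj (a / 8192) j * (NV (a * (2 * j - 1)) * (256 * gG (1 + a / 8192) * (8192 - a)) * (2 * j + 1)) =
      NV (a * (2 * j + 1)) * (256 * gG (1 + ((8192 - a : ℕ) : ℝ) / 8192)) *
        (((if (a * (2 * j + 1)) / 8192 - (a * (2 * j + 1) - 2 * a) / 8192 = 0 then 655360 else 1 : ℕ)) : ℝ) := by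
  have haR : (2048 : ℝ) ≤ a := by exact_mod_cast ha
  have haR2 : (a : ℝ) < 4096 := by exact_mod_cast ha2
  have hθ0 : (0 : ℝ) < a / 8192 := by positivity
  have hθ1 : (a : ℝ) / 8192 < 1 / 2 := by rw [div_lt_iff₀ (by norm_num)]; linarith
  have e1 : a * (2 * j + 1) - 2 * a = a * (2 * j - 1) := by
    obtain ⟨i, rfl⟩ : ∃ i, j = i + 1 := ⟨j - 1, by omega⟩
    have : 2 * (i + 1) - 1 = 2 * i + 1 := by omega
    rw [this]
    have h2 : a * (2 * (i + 1) + 1) = a * (2 * i + 1) + 2 * a := by ring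
    rw [h2, Nat.add_sub_cancel]
  have e2 : a * (2 * j + 1) = a * (2 * j - 1) + 2 * a := by
    obtain ⟨i, rfl⟩ : ∃ i, j = i + 1 := ⟨j - 1, by omega⟩
    have : 2 * (i + 1) - 1 = 2 * i + 1 := by omega
    rw [this]
    ring
  rw [e1]
  have c1 : ((a * (2 * j + 1) : ℕ) : ℝ) / 8192 = (2 * (j : ℝ) + 1) * (a / 8192) := by push_cast; ring
  have c2 : ((a * (2 * j - 1) : ℕ) : ℝ) / 8192 = (2 * (j : ℝ) - 1) * (a / 8192) := by
    rw [Nat.cast_mul, Nat.cast_sub (by omega)]; push_cast; ring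
  have c3 : 1 + ((8192 - a : ℕ) : ℝ) / 8192 = (1 - (a : ℝ) / 8192) + 1 := by
    rw [Nat.cast_sub (by omega)]; push_cast; ring
  have hG1 := h4.1 (1 - (a : ℝ) / 8192) (by linarith)
  have hm := h4.2.1 (a / 8192) hθ0 hθ1 j
  have hm' : rj (a / 8192) j = _ := hm
  -- the powers
  set m2 := a * (2 * j + 1) / 8192 with hm2
  set m1 := a * (2 * j - 1) / 8192 with hm1
  have hpow : (((if m2 - m1 = 0 then 655360 else 1 : ℕ)) : ℝ) * 655360 ^ m2 = 655360 * 655360 ^ m1 := by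
    have hle : m1 ≤ m2 := by rw [hm1, hm2]; exact Nat.div_le_div_right (by omega)
    have hle2 : m2 ≤ m1 + 1 := by omega
    by_cases h : m2 - m1 = 0
    · rw [if_pos h]
      have : m2 = m1 := by omega
      rw [this]; norm_num
    · rw [if_neg h]
      have : m2 = m1 + 1 := by omega
      rw [this, pow_succ]; norm_num
      ring
  have hA : 0 < gG (1 + (2 * (j : ℝ) - 1) * (a / 8192)) := by
    rw [← c2]; exact (h4.1 _ (by positivity)).2
  have hD : 0 < gG (1 + (a : ℝ) / 8192) := (h4.1 _ (by positivity)).2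
  have hj0 : (0 : ℝ) < 2 * j + 1 := by positivity
  unfold NV
  rw [← hm1, ← hm2, c1, c2, c3, hG1.1, hm']
  set A := gG (1 + (2 * (j : ℝ) + 1) * (a / 8192))
  set B := gG (1 - (a : ℝ) / 8192)
  set C := gG (1 + (2 * (j : ℝ) - 1) * (a / 8192))
  set E := gG (1 + (a : ℝ) / 8192)
  have key : 256 * A * 655360 ^ m2 * (256 * ((1 - (a : ℝ) / 8192) / 80 * B)) *
      (((if m2 - m1 = 0 then 655360 else 1 : ℕ)) : ℝ) =
      256 * A * (256 * ((1 - (a : ℝ) / 8192) / 80 * B)) *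
      ((((if m2 - m1 = 0 then 655360 else 1 : ℕ)) : ℝ) * 655360 ^ m2) := by ring
  rw [key, hpow]
  field_simp
  ring

theorem n5_aux (G : ℕ) (h4 : N4)
    (hG : ∀ r : ℕ, r < 8192 →
      |(gent r : ℝ) - 256 * gG (1 + r / 8192)| ≤ 2⁻¹ ^ 106 * (256 * gG (1 + r / 8192)) ∧
      fld G 128 r = gent r) (a : ℕ) (ha : 2048 ≤ a) (ha2 : a < 4096) (j : ℕ) (hj : 1 ≤ j) :
    rho G a j < 2 ^ 121 ∧
      |(rho G a j : ℝ) - 2 ^ 120 * rj (a / 8192) j| ≤ 2⁻¹ ^ 103 * (2 ^ 120 * rj (a / 8192) j) + 1 := by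
  have haR : (2048 : ℝ) ≤ a := by exact_mod_cast ha
  have haR2 : (a : ℝ) < 4096 := by exact_mod_cast ha2
  have hθ0 : (0 : ℝ) < a / 8192 := by positivity
  have hθ1 : (a : ℝ) / 8192 < 1 / 2 := by rw [div_lt_iff₀ (by norm_num)]; linarith
  obtain ⟨hr0, hr1⟩ := rj_bounds hθ0 hθ1 j
  obtain ⟨hx, hX⟩ := gval_approx h4 G hG (a * (2 * j + 1))
  obtain ⟨hu, hU⟩ := gval_approx h4 G hG (a * (2 * j - 1))
  have hW0 : |(fld G 128 (8192 - a) : ℝ) - 256 * gG (1 + ((8192 - a : ℕ) : ℝ) / 8192)| ≤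
      2⁻¹ ^ 106 * (256 * gG (1 + ((8192 - a : ℕ) : ℝ) / 8192)) := by
    have h := hG (8192 - a) (by omega)
    rw [h.2]
    exact h.1
  have hW1 : |((fld G 128 a * (8192 - a) : ℕ) : ℝ) - 256 * gG (1 + a / 8192) * (8192 - a)| ≤
      2⁻¹ ^ 106 * (256 * gG (1 + a / 8192) * (8192 - a)) := by
    have h := hG a (by omega)
    rw [h.2, Nat.cast_mul, Nat.cast_sub (by omega)]
    push_cast
    have h5 : (0 : ℝ) ≤ 8192 - a := by linarith
    have h6 : (gent a : ℝ) * (8192 - a) - 256 * gG (1 + a / 8192) * (8192 - a) =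
        ((gent a : ℝ) - 256 * gG (1 + a / 8192)) * (8192 - a) := by ring
    rw [h6, abs_mul, abs_of_nonneg h5]
    calc _ ≤ 2⁻¹ ^ 106 * (256 * gG (1 + a / 8192)) * (8192 - a) := mul_le_mul_of_nonneg_right h.1 h5
      _ = _ := by ring
  have hY : 0 < 256 * gG (1 + ((8192 - a : ℕ) : ℝ) / 8192) := by
    have := (h4.1 (1 + ((8192 - a : ℕ) : ℝ) / 8192) (by positivity)).2
    positivity
  have hV : 0 < 256 * gG (1 + (a : ℝ) / 8192) * (8192 - a) := by
    have := (h4.1 (1 + (a : ℝ) / 8192) (by positivity)).2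
    have h5 : (0 : ℝ) < 8192 - a := by linarith
    positivity
  set c : ℕ := (if (a * (2 * j + 1)) / 8192 - (a * (2 * j + 1) - 2 * a) / 8192 = 0 then 655360 else 1)
    with hc
  have hc0 : 0 < c := by rw [hc]; split_ifs <;> norm_num
  have hcR : (0 : ℝ) < c := by exact_mod_cast hc0
  have hk : (0 : ℝ) < 2 * j + 1 := by positivity
  have hreq := rj_eq h4 ha ha2 hj
  rw [← hc] at hreq
  obtain ⟨hu0, hv0, hq⟩ := ratio_approx (δ := 2⁻¹ ^ 106) (by positivity) (by norm_num) hX hY hU hV hcR hk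
    hx hW0 hu hW1 hreq hr0
  have hrho : rho G a j = (gval G (a * (2 * j + 1)) * fld G 128 (8192 - a) * c) * 2 ^ 120 /
    ((gval G (a * (2 * j - 1)) * (fld G 128 a * (8192 - a))) * (2 * j + 1)) := rfl
  set x := gval G (a * (2 * j + 1))
  set y := fld G 128 (8192 - a)
  set u := gval G (a * (2 * j - 1))
  set v := fld G 128 a * (8192 - a)
  have hu0' : 0 < u := by exact_mod_cast hu0
  have hv0' : 0 < v := by exact_mod_cast hv0
  have hD : 0 < u * v * (2 * j + 1) := by positivity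
  have hDR : (0 : ℝ) < (u : ℝ) * v * (2 * j + 1) := by positivity
  have hfl : ((rho G a j : ℕ) : ℝ) ≤ 2 ^ 120 * ((x : ℝ) * y * c / ((u : ℝ) * v * (2 * j + 1))) ∧
      2 ^ 120 * ((x : ℝ) * y * c / ((u : ℝ) * v * (2 * j + 1))) < (rho G a j : ℕ) + 1 := by
    rw [hrho]
    constructor
    · rw [← mul_div_assoc, le_div_iff₀ hDR]
      have h := Nat.div_mul_le_self (x * y * c * 2 ^ 120) (u * v * (2 * j + 1))
      have h' : (((x * y * c * 2 ^ 120 / (u * v * (2 * j + 1)) * (u * v * (2 * j + 1)) : ℕ)) : ℝ) ≤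
        ((x * y * c * 2 ^ 120 : ℕ) : ℝ) := by exact_mod_cast h
      rw [Nat.cast_mul (_ / _) _] at h'
      push_cast at h' ⊢
      linarith
    · rw [← mul_div_assoc, div_lt_iff₀ hDR]
      have h := Nat.lt_mul_div_succ (x * y * c * 2 ^ 120) hD
      have h' : ((x * y * c * 2 ^ 120 : ℕ) : ℝ) <
        (((u * v * (2 * j + 1)) * (x * y * c * 2 ^ 120 / (u * v * (2 * j + 1)) + 1) : ℕ) : ℝ) := by
        exact_mod_cast h
      rw [Nat.cast_mul _ (_ / _ + 1), Nat.cast_add (_ / _) 1] at h'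
      push_cast at h' ⊢
      linarith
  set q := (x : ℝ) * y * c / ((u : ℝ) * v * (2 * j + 1))
  rw [abs_le] at hq
  have hδ : (8 : ℝ) * 2⁻¹ ^ 106 = 2⁻¹ ^ 103 := by norm_num
  rw [hδ] at hq
  have h120 : (0 : ℝ) < 2 ^ 120 := by positivity
  have hq1 : 2 ^ 120 * q ≤ 2 ^ 120 * rj (a / 8192) j + 2⁻¹ ^ 103 * (2 ^ 120 * rj (a / 8192) j) := by
    nlinarith
  have hq2 : 2 ^ 120 * rj (a / 8192) j - 2⁻¹ ^ 103 * (2 ^ 120 * rj (a / 8192) j) ≤ 2 ^ 120 * q := by
    nlinarith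
  constructor
  · have h3 : ((rho G a j : ℕ) : ℝ) < 2 ^ 121 := by
      have h4 : (2 : ℝ) ^ 120 * rj (a / 8192) j ≤ 2 ^ 120 := by nlinarith
      have h5 : (2 : ℝ)⁻¹ ^ 103 * (2 ^ 120 * rj (a / 8192) j) ≤ 2⁻¹ ^ 103 * 2 ^ 120 :=
        mul_le_mul_of_nonneg_left h4 (by positivity)
      have h6 : (2 : ℝ) ^ 120 + 2⁻¹ ^ 103 * 2 ^ 120 < 2 ^ 121 := by norm_num
      linarith [hfl.1]
    exact_mod_cast h3
  · rw [abs_le]
    constructor <;> linarith [hfl.1, hfl.2]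

theorem n5 : Pool.Agent.Helper63.P705.N5 := by
  intro h4 hG a ha ha2
  have haR : (2048 : ℝ) ≤ a := by exact_mod_cast ha
  have haR2 : (a : ℝ) < 4096 := by exact_mod_cast ha2
  have hθ0 : (0 : ℝ) < a / 8192 := by positivity
  have hθ1 : (a : ℝ) / 8192 < 1 / 2 := by rw [div_lt_iff₀ (by norm_num)]; linarith
  generalize GT = G at hG ⊢
  have haux := n5_aux G h4 hG a ha ha2
  have hlt : ∀ k, k < 121 → (if k = 0 then 2 ^ 120 else rho G a k) < 2 ^ 128 := by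
    intro k _
    by_cases hk : k = 0
    · rw [if_pos hk]
      exact Nat.pow_lt_pow_right (by norm_num) (by norm_num)
    · rw [if_neg hk]
      exact (haux k (by omega)).1.trans (Nat.pow_lt_pow_right (by norm_num) (by norm_num))
  have hfld : ∀ k, k < 121 → fld (rpk G a 120) 128 k = if k = 0 then 2 ^ 120 else rho G a k := by
    intro k hk
    rw [rpk_sum]
    exact fld_sum 128 121 (fun k => if k = 0 then 2 ^ 120 else rho G a k) hlt k hk
  refine ⟨fun j => rj_bounds hθ0 hθ1 j, ?_, ?_⟩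
  · rw [hfld 0 (by norm_num), if_pos rfl]
  · intro j hj hj2
    rw [hfld j (by omega), if_neg (by omega)]
    exact haux j hj

end Pool.Agent.Helper93.P705
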